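import Mathlib

/-!
# The three scalar functions of a Jacobi field in constant curvature `κ`

`p = |J|²`, `q = ⟨J, J'⟩`, `r = |J'|²`: `p' = 2 q`, `q' = r - κ p`, `r' = -2 κ q`.
-/

set_option autoImplicit false

namespace Pool.Agent.H2.S7

open Real Set

variable {p q r : ℝ → ℝ} {κ : ℝ}

/-- Positive curvature: a field which vanishes at `0` vanishes at `π / √κ`. -/
theorem zero_pos (hκ : 0 < κ) (hp : ∀ t, HasDerivAt p (2 * q t) t)
    (hq : ∀ t, HasDerivAt q (r t - κ * p t) t) (hr : ∀ t, HasDerivAt r (-(2 * κ * q t)) t)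
    (h0 : p 0 = 0) : p (π / √κ) = 0 := by
  set k := √κ with hk
  have hk0 : 0 < k := Real.sqrt_pos.2 hκ
  have hk2 : k * k = κ := Real.mul_self_sqrt hκ.le
  set g : ℝ → ℝ := fun t => (sin (k * t) / k) ^ 2 * r t -
    2 * (sin (k * t) / k) * cos (k * t) * q t + cos (k * t) ^ 2 * p t with hg
  have hs : ∀ t, HasDerivAt (fun t => sin (k * t) / k) (cos (k * t)) t := by
    intro t
    have h1 : HasDerivAt (fun t : ℝ => k * t) k t := by
      simpa using (hasDerivAt_id t).const_mul k
    have h2 := (h1.sin).div_const k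
    have e : cos (k * t) * k / k = cos (k * t) := by field_simp
    rwa [e] at h2
  have hc : ∀ t, HasDerivAt (fun t => cos (k * t)) (-(κ * (sin (k * t) / k))) t := by
    intro t
    have h1 : HasDerivAt (fun t : ℝ => k * t) k t := by
      simpa using (hasDerivAt_id t).const_mul k
    have h2 := h1.cos
    have e : -sin (k * t) * k = -(κ * (sin (k * t) / k)) := by
      rw [← hk2]
      field_simp
    rwa [e] at h2
  have hg' : ∀ t, HasDerivAt g 0 t := by
    intro t
    have h1 := (((hs t).pow 2).mul (hr t)).sub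
      ((((hs t).const_mul 2).mul (hc t)).mul (hq t))
    have h2 := h1.add (((hc t).pow 2).mul (hp t))
    refine h2.congr_deriv ?_
    simp only [Pi.pow_apply, Pi.mul_apply, Nat.cast_ofNat]
    ring
  have hconst : g (π / k) = g 0 :=
    is_const_of_deriv_eq_zero (fun t => (hg' t).differentiableAt) (fun t => (hg' t).deriv) _ _
  have e1 : g 0 = 0 := by
    simp only [hg, mul_zero, sin_zero, zero_div, cos_zero, h0]
    ring
  have e2 : g (π / k) = p (π / k) := by
    have e3 : k * (π / k) = π := by field_simp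
    simp only [hg, e3, sin_pi, zero_div, cos_pi]
    ring
  rw [← e2, hconst, e1]

/-- Negative curvature: `q` grows by a fixed multiple of the initial energy. -/
theorem grow_neg (hκ : κ < 0) (hp : ∀ t, HasDerivAt p (2 * q t) t)
    (hq : ∀ t, HasDerivAt q (r t - κ * p t) t) (hr : ∀ t, HasDerivAt r (-(2 * κ * q t)) t)
    (hp0 : ∀ t, 0 ≤ p t) (hr0 : ∀ t, 0 ≤ r t) (hpr : ∀ t, q t ^ 2 ≤ p t * r t) {T : ℝ}
    (hT : 1 ≤ T) : q 0 + (r 0 - κ * p 0) * exp (-(2 * √(-κ))) ≤ q T := by
  set m := √(-κ) with hm
  have hm0 : 0 < m := Real.sqrt_pos.2 (by linarith)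
  have hm2 : m * m = -κ := Real.mul_self_sqrt (by linarith)
  set P : ℝ → ℝ := fun t => r t - κ * p t with hP
  have hP0 : ∀ t, 0 ≤ P t := by
    intro t
    have h1 := hp0 t
    have h2 := hr0 t
    simp only [hP]
    nlinarith
  have hPd : ∀ t, HasDerivAt P (4 * m * m * q t) t := by
    intro t
    have h1 := (hr t).sub ((hp t).const_mul κ)
    refine h1.congr_deriv ?_
    have : κ = -(m * m) := by linarith
    rw [this]
    ring
  have hPq : ∀ t, -(2 * m * P t) ≤ 4 * m * m * q t := by
    intro t
    -- `2 m |q| ≤ P`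
    have h1 : (2 * m * q t) ^ 2 ≤ (P t) ^ 2 := by
      have h2 := hpr t
      have h3 : P t ^ 2 - (2 * m) ^ 2 * (p t * r t) = (r t + κ * p t) ^ 2 := by
        simp only [hP]
        have : κ = -(m * m) := by linarith
        rw [this]
        ring
      have h4 : (2 * m * q t) ^ 2 = (2 * m) ^ 2 * q t ^ 2 := by ring
      rw [h4]
      have h5 : (2 * m) ^ 2 * q t ^ 2 ≤ (2 * m) ^ 2 * (p t * r t) :=
        mul_le_mul_of_nonneg_left h2 (by positivity)
      nlinarith [sq_nonneg (r t + κ * p t)]
    have h6 : |2 * m * q t| ≤ P t := by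
      exact abs_le_of_sq_le_sq h1 (hP0 t)
    have h7 := (abs_le.1 h6).1
    nlinarith
  -- lower bound of `P`
  have hlow : ∀ t, 0 ≤ t → P 0 * exp (-(2 * m * t)) ≤ P t := by
    have hmono : MonotoneOn (fun t => P t * exp (2 * m * t)) (Ici 0) := by
      apply monotoneOn_of_deriv_nonneg (convex_Ici 0)
      · exact fun t _ => ((hPd t).mul (((hasDerivAt_id t).const_mul (2 * m)).exp)).continuousAt
          |>.continuousWithinAt
      · exact fun t _ => ((hPd t).mul (((hasDerivAt_id t).const_mul (2 * m)).exp)).differentiableAt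
          |>.differentiableWithinAt
      · intro t _
        have h1 := (hPd t).mul (((hasDerivAt_id t).const_mul (2 * m)).exp)
        have h2 : deriv (fun t => P t * exp (2 * m * t)) t =
            4 * m * m * q t * exp (2 * m * t) + P t * (exp (2 * m * t) * (2 * m * 1)) := h1.deriv
        rw [h2]
        have h3 := hPq t
        have h4 := exp_pos (2 * m * t)
        nlinarith
    intro t ht
    have h1 := hmono (self_mem_Ici) (show t ∈ Ici (0 : ℝ) from ht) ht
    simp only [mul_zero, exp_zero, mul_one] at h1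
    calc P 0 * exp (-(2 * m * t)) ≤ P t * exp (2 * m * t) * exp (-(2 * m * t)) :=
          mul_le_mul_of_nonneg_right h1 (exp_pos _).le
      _ = P t := by rw [mul_assoc, ← exp_add, add_neg_cancel, exp_zero, mul_one]
  have hqmono : Monotone q := monotone_of_hasDerivAt_nonneg hq (fun t => hP0 t)
  have h1 : q 0 + P 0 * exp (-(2 * m)) ≤ q 1 := by
    have hmono : MonotoneOn (fun t => q t - P 0 * exp (-(2 * m)) * t) (Icc 0 1) := by
      apply monotoneOn_of_deriv_nonneg (convex_Icc 0 1)
      · exact fun t _ => ((hq t).sub ((hasDerivAt_id t).const_mul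
          (P 0 * exp (-(2 * m))))).continuousAt.continuousWithinAt
      · exact fun t _ => ((hq t).sub ((hasDerivAt_id t).const_mul
          (P 0 * exp (-(2 * m))))).differentiableAt.differentiableWithinAt
      · intro t ht
        rw [interior_Icc] at ht
        have h2 : deriv (fun t => q t - P 0 * exp (-(2 * m)) * t) t =
            (r t - κ * p t) - P 0 * exp (-(2 * m)) * 1 :=
          ((hq t).sub ((hasDerivAt_id t).const_mul (P 0 * exp (-(2 * m))))).deriv
        rw [h2]
        have h3 := hlow t ht.1.le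
        have h4 : exp (-(2 * m)) ≤ exp (-(2 * m * t)) := by
          apply exp_le_exp.2
          nlinarith [ht.2]
        have h5 : P 0 * exp (-(2 * m)) ≤ P 0 * exp (-(2 * m * t)) :=
          mul_le_mul_of_nonneg_left h4 (hP0 0)
        have h6 : P t = r t - κ * p t := rfl
        linarith
    have h2 := hmono (left_mem_Icc.2 zero_le_one) (right_mem_Icc.2 zero_le_one) zero_le_one
    simp only [mul_zero, sub_zero, mul_one] at h2
    linarith
  have h2 : q 1 ≤ q T := hqmono hT
  have h3 : P 0 = r 0 - κ * p 0 := rfl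
  rw [← h3]
  linarith

end Pool.Agent.H2.S7
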